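import Mathlib
set_option autoImplicit false

namespace Pool.Agent.Results.MP_5b3867_an.NotEquivalent

open MeasureTheory Filter Topology Metric
open scoped ComplexConjugate ENNReal NNReal

/-- Normalised area measure on the unit disc. -/
noncomputable def dA : Measure ℂ := (ENNReal.ofReal Real.pi)⁻¹ • volume.restrict (ball 0 1)

/-- A weight: positive and locally integrable on the disc. -/
def IsWeight (u : ℂ → ℝ) : Prop :=
  (∀ z ∈ ball (0 : ℂ) 1, 0 < u z) ∧ LocallyIntegrableOn u (ball 0 1)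

/-- The Bergman projection. -/
noncomputable def PB (f : ℂ → ℂ) (z : ℂ) : ℂ := ∫ ζ, f ζ / (1 - z * conj ζ) ^ 2 ∂dA

/-- The maximal Bergman projection. -/
noncomputable def PBplus (f : ℂ → ℂ) (z : ℂ) : ℂ := ∫ ζ, f ζ / (‖1 - z * conj ζ‖ ^ 2 : ℝ) ∂dA

/-- The squared norm of `g` in `L²(D, u)`. -/
noncomputable def nsq (u : ℂ → ℝ) (g : ℂ → ℂ) : ℝ≥0∞ := ∫⁻ z, ENNReal.ofReal (‖g z‖ ^ 2 * u z) ∂dA

/-- `T(σ ·) : L²(σ) → L²(w)` is bounded on bounded measurable functions of compact support. -/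
def Bdd (T : (ℂ → ℂ) → ℂ → ℂ) (w σ : ℂ → ℝ) : Prop :=
  ∃ C : ℝ≥0, ∀ f : ℂ → ℂ, Measurable f → (∃ M, ∀ z, ‖f z‖ ≤ M) →
    (∃ K, IsCompact K ∧ K ⊆ ball 0 1 ∧ ∀ z ∉ K, f z = 0) →
      nsq w (T fun ζ => σ ζ * f ζ) ≤ C ^ 2 * nsq σ f

lemma ae_D : ∀ᵐ z ∂dA, ‖z‖ < 1 :=
  Measure.ae_smul_measure ((ae_restrict_mem measurableSet_ball).mono fun z h => by simpa using h) _

instance : IsFiniteMeasure dA := ⟨by
  have := Real.pi_pos
  simp only [dA, Measure.smul_apply, Measure.restrict_apply_univ, smul_eq_mul]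
  exact ENNReal.mul_lt_top (by simpa) measure_ball_lt_top⟩

lemma mom (k : ℕ) (r : ℝ) (h0 : 0 < r) (h1 : r ≤ 1) :
    ∫ z, ‖z‖ ^ (2 * k) * (ball 0 r).indicator 1 z ∂dA = r ^ (2 * k + 2) / (k + 1) := by
  have := Real.pi_pos
  have e := integral_fun_norm_addHaar (volume : Measure ℂ) ((Set.Iio r).indicator fun y => y ^ (2 * k))
  have e2 : ∫ y in Set.Ioi (0 : ℝ), y ^ (2 - 1) • (Set.Iio r).indicator (fun y => y ^ (2 * k)) y =
      r ^ (2 * k + 2) / (2 * k + 2) := by
    have : ∀ y : ℝ, y ^ (2 - 1) • (Set.Iio r).indicator (fun y => y ^ (2 * k)) y =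
        (Set.Iio r).indicator (fun y => y ^ (2 - 1) • y ^ (2 * k)) y := fun y => by
      by_cases h : y < r <;> simp [Set.indicator, h]
    simp only [this]
    rw [setIntegral_indicator measurableSet_Iio, Set.Ioi_inter_Iio, ← integral_Ioc_eq_integral_Ioo,
      ← intervalIntegral.integral_of_le h0.le]
    simp only [smul_eq_mul, ← pow_add, integral_pow]
    rw [show 2 - 1 + 2 * k + 1 = 2 * k + 2 by omega]
    simp; ring
  rw [Complex.finrank_real_complex, e2] at e
  rw [dA, integral_smul_measure, ← integral_indicator measurableSet_ball]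
  have e3 : (ball (0 : ℂ) 1).indicator (fun z => ‖z‖ ^ (2 * k) * (ball 0 r).indicator 1 z) =
      fun z => (Set.Iio r).indicator (fun y => y ^ (2 * k)) ‖z‖ := by
    funext z
    by_cases h : ‖z‖ < r
    · simp [Set.indicator, h, h.trans_le h1]
    · simp [Set.indicator, h]
  rw [e3, e]
  simp [Measure.real, this.le]
  field_simp

lemma mom1 (k : ℕ) : ∫ z, ‖z‖ ^ (2 * k) ∂dA = 1 / (k + 1) := by
  have := mom k 1 one_pos le_rfl
  rw [one_pow] at this
  rw [← this]
  exact integral_congr_ae (ae_D.mono fun z h => by simp [h])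

def Rad (ρ : ℂ → ℝ) : Prop := Integrable ρ dA ∧ ∀ u z : ℂ, ‖u‖ = 1 → ρ (u * z) = ρ z

lemma intg {E : Type} [NormedRing E] {ρ : ℂ → E} (h : Integrable ρ dA) {g : ℂ → E}
    (hg : Continuous g) : Integrable (fun z => g z * ρ z) dA := by
  obtain ⟨C, hC⟩ := (isCompact_closedBall (0 : ℂ) 1).exists_bound_of_continuousOn hg.continuousOn
  exact h.bdd_mul hg.aestronglyMeasurable (ae_D.mono fun z hz => hC z (by simpa using hz.le))

lemma intc {E : Type} [NormedRing E] {g : ℂ → E} (hg : Continuous g) : Integrable g dA := by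
  simpa using intg (integrable_const (1 : E)) hg

lemma ortho {ρ : ℂ → ℝ} (h : Rad ρ) {n m : ℕ} (hn : n ≠ m) :
    ∫ z, z ^ n * conj z ^ m * ρ z ∂dA = 0 := by
  let u := Circle.exp (Real.pi / (n - m))
  have mp : MeasurePreserving (rotation u) dA dA := by
    have := ((rotation u).measurePreserving.restrict_preimage
      (measurableSet_ball (x := 0) (ε := 1))).smul_measure (ENNReal.ofReal Real.pi)⁻¹
    rwa [show rotation u ⁻¹' ball 0 1 = ball 0 1 by
      ext; simp only [Set.mem_preimage, mem_ball_zero_iff, LinearIsometryEquiv.norm_map]] at this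
  have e := mp.integral_comp (rotation u).toHomeomorph.measurableEmbedding
    (fun z => z ^ n * conj z ^ m * ρ z)
  have hu : (u : ℂ) ^ n * conj (u : ℂ) ^ m = -1 := by
    have : (n : ℂ) - m ≠ 0 := sub_ne_zero.mpr (by exact_mod_cast hn)
    rw [Circle.coe_exp, ← Complex.exp_conj, ← Complex.exp_nat_mul, ← Complex.exp_nat_mul,
      ← Complex.exp_add, ← Complex.exp_pi_mul_I]
    congr 1
    simp only [map_mul, Complex.conj_ofReal, Complex.conj_I]
    push_cast
    field_simp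
    ring
  have e2 : ∀ z, rotation u z ^ n * conj (rotation u z) ^ m * ρ (rotation u z) =
      -(z ^ n * conj z ^ m * ρ z) := fun z => by
    rw [rotation_apply, h.2 _ _ u.norm_coe, map_mul, mul_pow, mul_pow]
    linear_combination (z ^ n * conj z ^ m * ρ z) * hu
  simp only [e2, integral_neg] at e
  linear_combination (-1 / 2 : ℂ) * e

lemma pyth {ρ : ℂ → ℝ} (h : Rad ρ) (a : ℕ → ℂ) (N : ℕ) :
    ∫ z, ‖∑ n ∈ Finset.range N, a n * z ^ n‖ ^ 2 * ρ z ∂dA =
      ∑ n ∈ Finset.range N, ‖a n‖ ^ 2 * ∫ z, ‖z‖ ^ (2 * n) * ρ z ∂dA := by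
  apply Complex.ofReal_injective
  have i : ∀ n m : ℕ, Integrable (fun z => a n * conj (a m) * (z ^ n * conj z ^ m * ρ z)) dA :=
    fun n m => (intg h.1.ofReal (by fun_prop)).const_mul _
  have e : ∀ z : ℂ, ((‖∑ n ∈ Finset.range N, a n * z ^ n‖ ^ 2 * ρ z : ℝ) : ℂ) =
      ∑ n ∈ Finset.range N, ∑ m ∈ Finset.range N,
        a n * conj (a m) * (z ^ n * conj z ^ m * ρ z) := fun z => by
    push_cast
    rw [← Complex.mul_conj', map_sum, Finset.sum_mul_sum, Finset.sum_mul]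
    refine Finset.sum_congr rfl fun n _ => ?_
    rw [Finset.sum_mul]
    refine Finset.sum_congr rfl fun m _ => ?_
    rw [map_mul, map_pow]; ring
  rw [← integral_complex_ofReal]
  simp only [e]
  rw [integral_finsetSum _ fun n _ => integrable_finsetSum _ fun m _ => i n m, Complex.ofReal_sum]
  refine Finset.sum_congr rfl fun n hn => ?_
  rw [integral_finsetSum _ fun m _ => i n m, Finset.sum_eq_single_of_mem n hn fun m _ hm => by
    rw [integral_const_mul, ortho h hm.symm, mul_zero], integral_const_mul, Complex.mul_conj',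
    Complex.ofReal_mul, ← integral_complex_ofReal]
  simp only [← mul_pow, Complex.mul_conj', pow_mul]
  push_cast
  rfl

noncomputable def w (z : ℂ) : ℝ := 1 - ‖z‖ ^ 2

lemma w_c : Continuous w := by unfold w; fun_prop
lemma w_rad : Rad w := ⟨intc w_c, fun u z h => by simp [w, h]⟩
lemma w_nn : ∀ᵐ z ∂dA, 0 ≤ w z := ae_D.mono fun z h => by
  unfold w; nlinarith [norm_nonneg z]
lemma w_mom (n : ℕ) : ∫ z, ‖z‖ ^ (2 * n) * w z ∂dA = 1 / (n + 1) - 1 / (n + 2) := by
  have e : ∀ z : ℂ, ‖z‖ ^ (2 * n) * w z = ‖z‖ ^ (2 * n) - ‖z‖ ^ (2 * (n + 1)) := fun z => by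
    unfold w; ring
  simp only [e]
  rw [integral_sub (intc (by fun_prop)) (intc (by fun_prop)), mom1, mom1]
  push_cast; ring

lemma bessel {σ : ℂ → ℝ} (h : Rad σ) (h0 : ∀ z, 0 ≤ σ z) (h2 : ∫ z, σ z ∂dA ≤ 2) {f : ℂ → ℂ}
    (i1 : Integrable (fun z => σ z * f z) dA) (i2 : Integrable (fun z => ‖f z‖ ^ 2 * σ z) dA)
    (N : ℕ) : ∑ n ∈ Finset.range N, ‖∫ z, conj z ^ n * (σ z * f z) ∂dA‖ ^ 2 ≤
      2 * ∫ z, ‖f z‖ ^ 2 * σ z ∂dA := by
  set c : ℕ → ℂ := fun n => ∫ z, conj z ^ n * (σ z * f z) ∂dA with hc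
  have e1 : ((∑ n ∈ Finset.range N, ‖c n‖ ^ 2 : ℝ) : ℂ) =
      ∫ z, conj (∑ n ∈ Finset.range N, c n * z ^ n) * (σ z * f z) ∂dA := by
    simp only [map_sum, map_mul, map_pow, Finset.sum_mul, mul_assoc]
    rw [integral_finsetSum _ fun n _ => (intg i1 (by fun_prop)).const_mul _, Complex.ofReal_sum]
    refine Finset.sum_congr rfl fun n _ => ?_
    rw [integral_const_mul, mul_comm, Complex.mul_conj']; push_cast; rfl
  have i3 := intg h.1 (g := fun z => ‖∑ n ∈ Finset.range N, c n * z ^ n‖ ^ 2) (by fun_prop)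
  have e2 := norm_integral_le_of_norm_le (i2.add (i3.const_mul (1 / 4)))
    (f := fun z => conj (∑ n ∈ Finset.range N, c n * z ^ n) * (σ z * f z))
    (Eventually.of_forall fun z => by
      rw [norm_mul, norm_mul, RCLike.norm_conj, Complex.norm_real, Real.norm_of_nonneg (h0 z)]
      simp only [Pi.add_apply]
      nlinarith [mul_nonneg (h0 z) (sq_nonneg (‖f z‖ - ‖∑ n ∈ Finset.range N, c n * z ^ n‖ / 2))])
  simp only [Pi.add_apply] at e2
  rw [← e1, integral_add i2 (i3.const_mul _), integral_const_mul, pyth h, Complex.norm_real,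
    Real.norm_of_nonneg (by positivity)] at e2
  have e3 : ∑ n ∈ Finset.range N, ‖c n‖ ^ 2 * ∫ z, ‖z‖ ^ (2 * n) * σ z ∂dA ≤
      (∑ n ∈ Finset.range N, ‖c n‖ ^ 2) * 2 := by
    rw [Finset.sum_mul]
    refine Finset.sum_le_sum fun n _ => mul_le_mul_of_nonneg_left (le_trans ?_ h2) (by positivity)
    exact integral_mono_ae (intg h.1 (by fun_prop)) h.1 (ae_D.mono fun z hz =>
      mul_le_of_le_one_left (h0 z) (pow_le_one₀ (norm_nonneg _) hz.le))
  linarith

lemma bddP {σ : ℂ → ℝ} (h : Rad σ) (h0 : ∀ z, 0 ≤ σ z) (h2 : ∫ z, σ z ∂dA ≤ 2) : Bdd PB w σ := by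
  refine ⟨2, fun f hf ⟨M, hM⟩ _ => ?_⟩
  have i1 : Integrable (fun z => σ z * f z) dA :=
    h.1.ofReal.mul_bdd hf.aestronglyMeasurable (Eventually.of_forall hM)
  have i2 : Integrable (fun z => ‖f z‖ ^ 2 * σ z) dA :=
    h.1.bdd_mul (c := M ^ 2) (hf.norm.pow_const 2).aestronglyMeasurable (Eventually.of_forall
      fun z => by rw [norm_pow, norm_norm]; exact pow_le_pow_left₀ (norm_nonneg _) (hM z) 2)
  set c : ℕ → ℂ := fun n => ∫ z, conj z ^ n * (σ z * f z) ∂dA with hc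
  have hs : ∀ z : ℂ, ‖z‖ < 1 → HasSum (fun n : ℕ => (n + 1) * c n * z ^ n)
      (PB (fun ζ => σ ζ * f ζ) z) := fun z hz => by
    have i3 : ∀ n : ℕ, Integrable (fun ζ => (n + 1) * z ^ n * (conj ζ ^ n * (σ ζ * f ζ))) dA :=
      fun n => (intg i1 (by fun_prop)).const_mul _
    have := hasSum_integral_of_summable_integral_norm i3 (.of_nonneg_of_le
      (fun n => integral_nonneg fun _ => norm_nonneg _) (fun n => ?_)
      ((hasSum_choose_mul_geometric_of_norm_lt_one 1 (r := ‖z‖) (by simpa)).summable.mul_right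
        (∫ ζ, ‖σ ζ * f ζ‖ ∂dA)))
    · convert! this using 1
      · funext n; rw [integral_const_mul]; ring
      · refine integral_congr_ae (ae_D.mono fun ζ hζ => ?_)
        have := (hasSum_choose_mul_geometric_of_norm_lt_one 1 (r := z * conj ζ) (by
          rw [norm_mul, RCLike.norm_conj]; nlinarith [norm_nonneg z, norm_nonneg ζ])).mul_right
          (σ ζ * f ζ)
        refine Eq.trans (by ring) (this.tsum_eq.symm.trans (tsum_congr fun n => ?_))
        rw [Nat.choose_one_right]; push_cast; ring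
    · rw [← integral_const_mul]
      refine integral_mono_ae (i3 n).norm (i1.norm.const_mul _) (ae_D.mono fun ζ hζ => ?_)
      have : ‖(n + 1 : ℂ)‖ = n + 1 := by exact_mod_cast Complex.norm_natCast (n + 1)
      simp only [norm_mul, norm_pow, RCLike.norm_conj, this, Nat.choose_one_right]
      push_cast
      exact mul_le_mul_of_nonneg_left (mul_le_of_le_one_left (by positivity)
        (pow_le_one₀ (norm_nonneg _) hζ.le)) (by positivity)
  have hw := w_c
  have fat := lintegral_liminf_le' (μ := dA) (u := atTop) (f := fun (N : ℕ) z => ENNReal.ofReal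
    (‖∑ n ∈ Finset.range N, (n + 1) * c n * z ^ n‖ ^ 2 * w z))
    (fun N => (Continuous.measurable (by fun_prop)).ennreal_ofReal.aemeasurable)
  refine (le_of_eq (lintegral_congr_ae (ae_D.mono fun z hz => (Tendsto.liminf_eq ?_).symm))).trans
    (fat.trans (liminf_le_of_frequently_le' (Frequently.of_forall fun N => ?_)))
  · exact ENNReal.tendsto_ofReal (((hs z hz).tendsto_sum_nat.norm.pow 2).mul_const _)
  rw [nsq, ← ofReal_integral_eq_lintegral_ofReal i2 (Eventually.of_forall fun z => by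
    have := h0 z; positivity), ← ofReal_integral_eq_lintegral_ofReal (intc (by fun_prop))
    (w_nn.mono fun z hz => by positivity), pyth w_rad,
    show ((2 : ℝ≥0) : ℝ≥0∞) ^ 2 = ENNReal.ofReal 4 by norm_num, ← ENNReal.ofReal_mul (by norm_num)]
  apply ENNReal.ofReal_le_ofReal
  have := bessel h h0 h2 i1 i2 N
  have h3 : 0 ≤ ∫ z, ‖f z‖ ^ 2 * σ z ∂dA := integral_nonneg fun z => by have := h0 z; positivity
  refine (Finset.sum_le_sum fun n _ => ?_).trans (this.trans (by linarith))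
  have : ‖(n + 1 : ℂ)‖ = n + 1 := by exact_mod_cast Complex.norm_natCast (n + 1)
  rw [w_mom, norm_mul, this, mul_pow, mul_comm, ← mul_assoc]
  refine mul_le_of_le_one_left (by positivity) ?_
  field_simp
  linarith

lemma exσ (N : ℕ → ℕ) : ∃ σ : ℂ → ℝ, (∀ z, 0 < σ z) ∧ Rad σ ∧ ∫ z, σ z ∂dA ≤ 2 ∧
    ∀ j, ∀ᵐ z ∂dA, (1 / 2) ^ (j + 1) * (N j + 1) * ‖z‖ ^ (2 * N j) ≤ σ z := by
  let t : ℕ → ℂ → ℝ≥0∞ := fun j z => ENNReal.ofReal ((1 / 2) ^ (j + 1) * (N j + 1) * ‖z‖ ^ (2 * N j))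
  have mt : ∀ j, AEMeasurable (t j) dA := fun j =>
    (Continuous.measurable (by fun_prop)).ennreal_ofReal.aemeasurable
  have ms : AEMeasurable (fun z => ∑' j, t j z) dA := AEMeasurable.tsum mt
  have e : ∫⁻ z, ∑' j, t j z ∂dA = 1 := by
    rw [lintegral_tsum mt]
    have : ∀ j, ∫⁻ z, t j z ∂dA = ENNReal.ofReal (1 / 2 * (1 / 2) ^ j) := fun j => by
      rw [← ofReal_integral_eq_lintegral_ofReal (intc (by fun_prop))
        (Eventually.of_forall fun z => by positivity), integral_const_mul, mom1]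
      congr 1; field_simp; ring
    simp only [this]
    rw [← ENNReal.ofReal_tsum_of_nonneg (fun _ => by positivity) (summable_geometric_two.mul_left _),
      tsum_mul_left, tsum_geometric_two]
    simp
  have fin := ae_lt_top' ms (by rw [e]; simp)
  have i := integrable_toReal_of_lintegral_ne_top ms (by rw [e]; simp)
  refine ⟨fun z => 1 + (∑' j, t j z).toReal, fun z => by positivity,
    ⟨(integrable_const _).add i, fun u z h => by simp [t, h]⟩, ?_, fun j => fin.mono fun z hz => ?_⟩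
  · have := mom1 0
    simp only [mul_zero, pow_zero] at this
    rw [integral_add (integrable_const _) i, integral_toReal ms fin, e, this]
    norm_num
  · have := ENNReal.toReal_mono hz.ne (ENNReal.le_tsum (f := fun j => t j z) j)
    rw [ENNReal.toReal_ofReal (by positivity)] at this
    linarith

lemma lowP {ρ : ℂ → ℝ} (h : Rad ρ) (h0 : ∀ z, 0 ≤ ρ z) (N : ℕ) (a : ℝ)
    (ha : ∀ n < N, a ≤ ∫ z, ‖z‖ ^ (2 * n) * ρ z ∂dA) (z : ℂ) (hz : ‖z‖ < 1) :
    a / 4 * ∑ n ∈ Finset.range N, ‖z‖ ^ (2 * n) ≤ ‖PBplus (fun ζ => ρ ζ) z‖ := by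
  have e : PBplus (fun ζ => ρ ζ) z = (∫ ζ, ρ ζ / ‖1 - z * conj ζ‖ ^ 2 ∂dA : ℝ) := by
    rw [PBplus, ← integral_complex_ofReal]
    simp only [Complex.ofReal_div]
  have lo : ∀ ζ : ℂ, ‖ζ‖ < 1 → 1 - ‖z‖ ≤ ‖1 - z * conj ζ‖ := fun ζ hζ => by
    have := norm_sub_norm_le (1 : ℂ) (z * conj ζ)
    rw [norm_one, norm_mul, RCLike.norm_conj] at this
    nlinarith [norm_nonneg z]
  have z1 : 0 < 1 - ‖z‖ := by linarith
  have i : Integrable (fun ζ => ρ ζ / ‖1 - z * conj ζ‖ ^ 2) dA := by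
    simp only [div_eq_mul_inv]
    refine h.1.mul_bdd (c := ((1 - ‖z‖) ^ 2)⁻¹)
      (Continuous.measurable (by fun_prop)).inv.aestronglyMeasurable (ae_D.mono fun ζ hζ => ?_)
    rw [Real.norm_of_nonneg (by positivity)]
    gcongr
    exact lo ζ hζ
  rw [e, Complex.norm_real]
  refine le_trans ?_ (le_abs_self _)
  have p := pyth h (fun n => conj z ^ n) N
  have : ∫ ζ, 1 / 4 * (‖∑ n ∈ Finset.range N, conj z ^ n * ζ ^ n‖ ^ 2 * ρ ζ) ∂dA ≤
      ∫ ζ, ρ ζ / ‖1 - z * conj ζ‖ ^ 2 ∂dA := by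
    refine integral_mono_ae ((intg h.1 (by fun_prop)).const_mul _) i (ae_D.mono fun ζ hζ => ?_)
    have n1 : ‖1 - z * conj ζ‖ = ‖1 - conj z * ζ‖ := by rw [← RCLike.norm_conj]; simp
    have n2 := lo ζ hζ
    have g := geom_sum_mul_neg (conj z * ζ) N
    have n3 : ‖1 - (conj z * ζ) ^ N‖ ≤ 2 := by
      have := norm_sub_le (1 : ℂ) ((conj z * ζ) ^ N)
      rw [norm_one, norm_pow, norm_mul, RCLike.norm_conj] at this
      have := pow_le_one₀ (n := N) (mul_nonneg (norm_nonneg z) (norm_nonneg ζ))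
        (by nlinarith [norm_nonneg z, norm_nonneg ζ])
      linarith
    rw [← g, norm_mul, ← n1] at n3
    simp only [← mul_pow]
    rw [le_div_iff₀ (pow_pos (by linarith) 2)]
    have := mul_le_mul_of_nonneg_left (pow_le_pow_left₀ (by positivity) n3 2) (h0 ζ)
    nlinarith
  rw [integral_const_mul, p] at this
  refine le_trans ?_ this
  rw [Finset.mul_sum, Finset.mul_sum]
  refine Finset.sum_le_sum fun n hn => ?_
  rw [norm_pow, RCLike.norm_conj, ← pow_mul, mul_comm n 2]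
  nlinarith [ha n (Finset.mem_range.mp hn), pow_nonneg (norm_nonneg z) (2 * n)]

lemma harm (N : ℕ) : ∑ n ∈ Finset.range N, (1 / (n + 1) : ℝ) - 1 ≤
    ∫ z, (∑ n ∈ Finset.range N, ‖z‖ ^ (2 * n)) ^ 2 * w z ∂dA := by
  have e : ∀ z : ℂ, (∑ n ∈ Finset.range N, ‖z‖ ^ (2 * n)) ^ 2 * w z =
      ∑ n ∈ Finset.range N, (‖z‖ ^ (2 * n) - ‖z‖ ^ (2 * (n + N))) := fun z => by
    have := geom_sum_mul_neg (‖z‖ ^ 2) N
    simp only [← pow_mul] at this
    rw [sq, mul_assoc, w, this, Finset.sum_mul]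
    exact Finset.sum_congr rfl fun n _ => by ring
  simp only [e]
  rw [integral_finsetSum _ fun n _ => intc (by fun_prop)]
  have : ∀ n : ℕ, ∫ z : ℂ, (‖z‖ ^ (2 * n) - ‖z‖ ^ (2 * (n + N))) ∂dA =
      1 / (n + 1) - 1 / ((n + N : ℕ) + 1) := fun n => by
    rw [integral_sub (intc (by fun_prop)) (intc (by fun_prop)), mom1, mom1]
  simp only [this, Finset.sum_sub_distrib]
  have := Finset.sum_le_card_nsmul (Finset.range N) (fun n => (1 / ((n + N : ℕ) + 1) : ℝ))
    (1 / (N + 1)) fun n _ => by push_cast; gcongr; linarith [Nat.cast_nonneg (α := ℝ) n]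
  rw [Finset.card_range, nsmul_eq_mul, mul_one_div] at this
  have h2 : (N : ℝ) / (N + 1) ≤ 1 := by rw [div_le_one (by positivity)]; linarith
  linarith

theorem result : ∃ w σ : ℂ → ℝ, IsWeight w ∧ IsWeight σ ∧ Bdd PB w σ ∧ ¬ Bdd PBplus w σ := by
  choose N hN using fun j : ℕ => ((Real.tendsto_sum_range_one_div_nat_succ_atTop.comp
    (tendsto_add_atTop_nat 1)).eventually_ge_atTop (1 + (j + 1) * (16 * 2 ^ (j + 1)) ^ 2)).exists
  obtain ⟨σ, h0, h, h2, h3⟩ := exσ N
  have li : ∀ u : ℂ → ℝ, Integrable u dA → LocallyIntegrableOn u (ball 0 1) := fun u hu =>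
    IntegrableOn.locallyIntegrableOn ((integrable_smul_measure (by simp)
      (by simpa using Real.pi_pos)).mp hu)
  refine ⟨w, σ, ⟨fun z hz => ?_, li _ w_rad.1⟩, ⟨fun z _ => h0 z, li _ h.1⟩,
    bddP h (fun z => (h0 z).le) h2, fun ⟨C, hC⟩ => ?_⟩
  · have : ‖z‖ < 1 := by simpa using hz
    unfold w; nlinarith [norm_nonneg z]
  obtain ⟨j, hj⟩ := exists_nat_ge (2 * (C : ℝ) ^ 2)
  obtain ⟨r, ⟨r1, r0⟩, r2⟩ := ((((continuous_pow (4 * N j + 2)).tendsto' (1 : ℝ) 1 (by simp)).eventually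
    (lt_mem_nhds (by norm_num : (1 / 2 : ℝ) < 1))).and (lt_mem_nhds one_pos)).filter_mono
      (nhdsWithin_le_nhds (s := Set.Iio 1)) |>.and self_mem_nhdsWithin |>.exists
  have r2 : r < 1 := r2
  let ρ : ℂ → ℝ := fun z => σ z * (ball 0 r).indicator 1 z
  have hρ : Rad ρ := ⟨by
    have : ρ = (ball 0 r).indicator σ := by funext z; by_cases h : ‖z‖ < r <;> simp [ρ, h]
    rw [this]; exact h.1.indicator measurableSet_ball, fun u z hu => by
    simp [ρ, h.2 u z hu, Set.indicator, hu]⟩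
  have ρ0 : ∀ z, 0 ≤ ρ z := fun z => mul_nonneg (h0 z).le (Set.indicator_nonneg (by simp) _)
  have ha : ∀ n < N j + 1, (1 / 2) ^ (j + 1) / 4 ≤ ∫ z, ‖z‖ ^ (2 * n) * ρ z ∂dA := fun n hn => by
    have := integral_mono_ae (f := fun z : ℂ => (1 / 2) ^ (j + 1) * (N j + 1) *
      (‖z‖ ^ (2 * (n + N j)) * (ball 0 r).indicator 1 z))
      ((intg ((integrable_const 1).indicator measurableSet_ball) (by fun_prop)).const_mul _)
      (intg hρ.1 (g := fun z => ‖z‖ ^ (2 * n)) (by fun_prop)) ((h3 j).mono fun z hz => by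
        have := mul_le_mul_of_nonneg_left hz (mul_nonneg (pow_nonneg (norm_nonneg z) (2 * n))
          (Set.indicator_nonneg (s := ball 0 r) (f := 1) (by simp) z))
        simp only [ρ]
        calc _ = _ := by ring
          _ ≤ _ := this
          _ = _ := by ring)
    rw [integral_const_mul, mom _ _ r0 r2.le] at this
    refine le_trans ?_ this
    have p1 : r ^ (4 * N j + 2) ≤ r ^ (2 * (n + N j) + 2) := pow_le_pow_of_le_one r0.le r2.le (by omega)
    have p2 : (n : ℝ) ≤ N j := by exact_mod_cast Nat.lt_succ_iff.mp hn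
    rw [mul_assoc, div_eq_mul_inv _ (4 : ℝ)]
    gcongr
    rw [← mul_div_assoc, le_div_iff₀ (by positivity)]
    push_cast
    nlinarith [Nat.cast_nonneg (α := ℝ) (N j)]
  have k := hC ((ball 0 r).indicator 1) (measurable_one.indicator measurableSet_ball)
    ⟨1, fun z => by by_cases h : ‖z‖ < r <;> simp [h]⟩ ⟨closedBall 0 r, isCompact_closedBall _ _,
      closedBall_subset_ball r2, fun z hz => Set.indicator_of_notMem
        (fun h => hz (ball_subset_closedBall h)) _⟩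
  have e : (fun ζ => (σ ζ : ℂ) * (ball 0 r).indicator 1 ζ) = fun ζ => (ρ ζ : ℂ) := by
    funext z; by_cases h : ‖z‖ < r <;> simp [ρ, h]
  have k1 : nsq σ ((ball 0 r).indicator 1) ≤ ENNReal.ofReal 2 := by
    refine le_trans (lintegral_mono fun z => ENNReal.ofReal_le_ofReal (?_ : _ ≤ σ z)) ?_
    · by_cases h : ‖z‖ < r <;> simp [h, (h0 z).le]
    · rw [← ofReal_integral_eq_lintegral_ofReal h.1 (Eventually.of_forall fun z => (h0 z).le)]
      exact ENNReal.ofReal_le_ofReal h2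
  have hw := w_c
  have k2 : ENNReal.ofReal (∫ z, ((1 / 2) ^ (j + 1) / 4 / 4) ^ 2 *
      ((∑ n ∈ Finset.range (N j + 1), ‖z‖ ^ (2 * n)) ^ 2 * w z) ∂dA) ≤
      nsq w (PBplus fun ζ => ρ ζ) := by
    rw [ofReal_integral_eq_lintegral_ofReal (intc (by fun_prop))
      (w_nn.mono fun z hz => by positivity)]
    refine lintegral_mono_ae ((ae_D.and w_nn).mono fun z hz => ENNReal.ofReal_le_ofReal ?_)
    rw [← mul_assoc, ← mul_pow]
    exact mul_le_mul_of_nonneg_right (pow_le_pow_left₀ (by positivity)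
      (lowP hρ ρ0 _ _ ha z hz.1) 2) hz.2
  rw [e] at k
  have k3 := k2.trans (k.trans (mul_le_mul_right k1 _))
  rw [← ENNReal.ofReal_coe_nnreal, ← ENNReal.ofReal_pow C.coe_nonneg, ← ENNReal.ofReal_mul (by positivity),
    ENNReal.ofReal_le_ofReal_iff (by positivity), integral_const_mul] at k3
  have k4 := mul_le_mul_of_nonneg_left ((sub_le_sub_right (hN j) 1).trans (harm (N j + 1)))
    (sq_nonneg ((1 / 2 : ℝ) ^ (j + 1) / 4 / 4))
  have k5 : ((1 / 2 : ℝ) ^ (j + 1) / 4 / 4) ^ 2 * (1 + (j + 1) * (16 * 2 ^ (j + 1)) ^ 2 - 1) = j + 1 := by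
    rw [one_div, inv_pow]; field_simp; ring
  linarith

end Pool.Agent.Results.MP_5b3867_an.NotEquivalent
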